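import Pool.Agent.R401.Cl

/-!
# Automorphy up to an Artin factor from congruences at a positive proportion of the places

Let `R` be a continuous representation of the Galois group of a number field `K` (for example a CM
field) of dimension `n ≥ 2` over `ℚ̄_p`, for example one which is polarized and geometric as in the
conjecture, and suppose that the restriction of `R` to each open subgroup is irreducible. Let `π` be
an algebraic cuspidal automorphic representation of `GL_m` over `K`, `m` *arbitrary*, with an
irreducible Galois representation `W = ρ_π`. Suppose only that for the places `v` in *some* set `T` of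
positive upper density the traces of `R` and of `ρ_π` are congruent modulo `N(v) ^ (w / 2)`, where `w`
is the weight, up to a multiplier `ζ_v` from a finite set: the numbers
`(tr R(F_v) - ζ_v tr ρ_π(F_v)) ^ 2 / N(v) ^ w` are integral, up to a fixed denominator, and their
conjugates are bounded in the mean. Then `ρ_π` is isomorphic to `R ⊗ A` where `A` is an Artin
representation, that is, it factors through a finite quotient of the Galois group.

In particular `m` is a multiple of `n`; if `m < 2 n`, for example `m = n`, then `A` is a character of
finite order and `R` is automorphic: it is the Galois representation of the twist of `π` by the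
inverse of `A`. If `m` is not a multiple of `n` then there are no congruences of this kind.

Nothing is supposed about equality of traces, about ramification, about the reduction of `R` modulo
the maximal ideal, and about the restriction to the places above `p`; in particular `R` may be
residually reducible, and `p` may be equal to `2`. The theorem holds for all number fields `K`, and
for all continuous irreducible representations `W` of the Galois group.

Proof. As in the result `MP_7742d9_nt.SparseCongruences` one finds an open normal subgroup `H` such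
that `R|_H` is a subquotient of `W|_H`: Chebotarev's theorem for closed sets, the structure of zero
sets of matrix coefficients of positive Haar measure, and Burnside's theorem. By Clifford's theorem
the restriction of `W` to `H` is semisimple. Hence the space of the `H`-homomorphisms from `R` to `W`
is nonzero; it is a representation `A` of the quotient by `H`, and `R ⊗ A → W` is injective because
`R|_H` is absolutely irreducible, and surjective because `W` is irreducible.
-/

set_option autoImplicit false

namespace Pool.Agent.Results.MP_adf543_nt.ArtinFactor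

open NumberField IsDedekindDomain Filter Matrix

/-- the absolute Galois group of the field `K`, with the Krull topology -/
abbrev AbsGal (K : Type) [Field K] : Type := Gal(AlgebraicClosure K/K)

/-- `g` is an (arithmetic) Frobenius element at a maximal ideal `Q` of the ring of all algebraic
integers which lies above the finite place `v` of `K`. -/
def IsFrobenius {K : Type} [Field K] [NumberField K] (v : HeightOneSpectrum (𝓞 K))
    (g : AbsGal K) : Prop :=
  ∃ Q : Ideal (𝓞 (AlgebraicClosure K)), Q.IsMaximal ∧
    Q.comap (algebraMap (𝓞 K) (𝓞 (AlgebraicClosure K))) = v.asIdeal ∧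
    ∀ x : 𝓞 (AlgebraicClosure K), g • x - x ^ Ideal.absNorm v.asIdeal ∈ Q

section
variable {K F : Type} [Field K] [Field F] {n : ℕ}

/-- the matrix of `g` -/
noncomputable def mat (R : AbsGal K →* GL (Fin n) F) (g : AbsGal K) : Matrix (Fin n) (Fin n) F :=
  (R g : GL (Fin n) F)

/-- `W` is irreducible. -/
def Irreducible (W : AbsGal K →* GL (Fin n) F) : Prop :=
  0 < n ∧ ∀ X : Submodule F (Fin n → F), (∀ g, ∀ x ∈ X, mat W g *ᵥ x ∈ X) → X = ⊥ ∨ X = ⊤

/-- The restriction of `R` to every open subgroup of the absolute Galois group is absolutely
irreducible: the matrices of the elements of the subgroup span the space of all matrices. -/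
def StronglyIrreducible (R : AbsGal K →* GL (Fin n) F) : Prop :=
  ∀ H : Subgroup (AbsGal K), IsOpen (H : Set (AbsGal K)) →
    Submodule.span F {X | ∃ h ∈ H, X = mat R h} = ⊤

end

/-- **Automorphy up to an Artin factor.** -/
theorem result {K : Type} [Field K] [NumberField K] (p : ℕ) [Fact p.Prime] {F : Type}
    [NormedField F] [NormedAlgebra ℚ_[p] F] {n m : ℕ} (hn : 2 ≤ n)
    (R : AbsGal K →* GL (Fin n) F) (hR : Continuous R) (hirr : StronglyIrreducible R)
    (W : AbsGal K →* GL (Fin m) F) (hW : Continuous W) (hWirr : Irreducible W)
    -- the field of coefficients, the set of places, the multipliers, and the differences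
    {E : Type} [Field E] [NumberField E] (τ : E →+* F)
    (T : Set (HeightOneSpectrum (𝓞 K))) (Z : Finset E) (ζ a : HeightOneSpectrum (𝓞 K) → E)
    (hζ : ∀ v ∈ T, ζ v ∈ Z)
    (htr : ∀ v ∈ T, ∀ g, IsFrobenius v g →
      (mat R g⁻¹).trace - τ (ζ v) * (mat W g⁻¹).trace = τ (a v))
    -- they are divisible, up to a bounded denominator
    (w : ℤ) {d : ℕ} (hd : 0 < d) (b : HeightOneSpectrum (𝓞 K) → 𝓞 E)
    (hdiv : ∀ v ∈ T, (d : E) * a v ^ 2 = (Ideal.absNorm v.asIdeal : E) ^ w * b v)
    -- the upper density of `T` is positive, and the mean of the conjugates is bounded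
    {δ : ℝ} (hδ : 0 < δ) (C : ℝ)
    (hT : ∃ᶠ x : ℕ in atTop,
      δ * Nat.primeCounting x ≤
        ({v : HeightOneSpectrum (𝓞 K) | Ideal.absNorm v.asIdeal ≤ x ∧ v ∈ T}.ncard : ℝ) ∧
      ∑ᶠ v ∈ {v : HeightOneSpectrum (𝓞 K) | Ideal.absNorm v.asIdeal ≤ x ∧ v ∈ T},
        ∑ σ : E →+* ℂ, ‖σ (b v)‖ ≤ C * Nat.primeCounting x) :
    -- the Artin representation `A`, of dimension `r`
    ∃ (r : ℕ) (A : AbsGal K →* GL (Fin r) F), IsOpen (A.ker : Set (AbsGal K)) ∧ m = n * r ∧
      -- the isomorphism of `R ⊗ A` and `W`
      ∃ (M : Matrix (Fin m) (Fin n × Fin r) F) (M' : Matrix (Fin n × Fin r) (Fin m) F),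
        M * M' = 1 ∧ M' * M = 1 ∧
        ∀ g, mat W g = M * kroneckerMap (· * ·) (mat R g) (mat A g) * M' := by
  obtain ⟨H, hHn, hHo, Y, f, hY, hf, he⟩ := Pool.Agent.R401.Pf.sub p R hR W hW hirr hn τ w T Z ζ a b
    hd hζ htr hdiv hδ C (by
      refine (hT.and_eventually (Nat.tendsto_primeCounting.eventually_gt_atTop 0)).mono ?_
      rintro N ⟨⟨h1, h2⟩, h3⟩
      have h4 : (0 : ℝ) < (Nat.primeCounting N : ℝ) := by exact_mod_cast h3
      refine ⟨?_, h2⟩
      unfold Pool.Agent.W401.Cheb.dens
      rw [le_div_iff₀ h4]
      exact h1)
  obtain ⟨J, hJ, hJ'⟩ := Pool.Agent.R401.Cl.exists_embedding R W H hHn hWirr Y f hY hf he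
  obtain ⟨r, A, hA, hm, M, M', h1, h2, h3⟩ := Pool.Agent.R401.Cl.clifford R W H hHn (by omega)
    (hirr H hHo) hWirr J hJ hJ'
  exact ⟨r, A, Subgroup.isOpen_mono (H₁ := H) (fun h hh => hA h hh) hHo, hm, M, M', h1, h2, h3⟩

end Pool.Agent.Results.MP_adf543_nt.ArtinFactor
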