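import Pool.Agent.R629.NF.Conc9

/-!
# MP_adf543_nt: automorphy of Galois representations of CM fields on the edge

`K` is a number field which is Galois over `ℚ` (for instance a Galois CM field), `Ω` an algebraic
closure of `ℚ` which contains `K` and `GalOf K Ω` the absolute Galois group of `K`.  `(H_j)` is a
countable family of `m`-dimensional representations, stable under conjugation by the absolute Galois
group of `ℚ` (the representations `ρ_π` of all algebraic essentially conjugate self-dual cuspidal `π`)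
and `(R_i)` a countable family of irreducible `m`-dimensional representations (for instance polarized
and geometric ones), all with Frobenius eigenvalues of absolute value `q_v^w`.  Then `R_i` is isomorphic
to one of the `H_j` if and only if the values `l_i(t)` of `L(R_i, s)` on the line `Re s = 1 + w` are
algebraic over a field generated by countably many constants, the numbers `t` and `p^{-it}` and *all*
the values `l_j(t)`, or equivalently by the constants, `t`, the `p^{-it}` and *one* of the values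
`l_j(t)`.  The values of those `R_i` which are not automorphic are algebraically independent over the
field generated by all the `l_j(t)`, if the `R_i` are pairwise not conjugate.  Chebotarev's theorem is
not assumed: it is proved in the starting files and extended to `GalOf K Ω` in the files imported here.
-/

set_option autoImplicit false

namespace Pool.Agent.Results.MP_adf543_nt.AutomorphyOnTheEdge

open MeasureTheory NumberField IsDedekindDomain
open Pool.Agent.R629.NF
open Pool.Agent.R629.SP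

/-- **Automorphy on the edge.** -/
theorem result {K Ω : Type} [Field K] [NumberField K] [IsGalois ℚ K] [Field Ω] [CharZero Ω]
    [IsAlgClosure ℚ Ω] [Algebra K Ω] {F : HeightOneSpectrum (𝓞 K) → GalOf K Ω}
    (hF : ∀ v, IsFrobAt Ω v (F v : Gal(Ω/ℚ)))
    {k : Type} [Field k] [CharZero k] [TopologicalSpace k] [IsTopologicalRing k] [T1Space k]
    (ι : k →+* ℂ) {m : ℕ} {J : Type} [Countable J] {H : J → GalOf K Ω →* GL (Fin m) k}
    (hH : ∀ j, IsCont (H j)) (hstab : ∀ j (s : Gal(Ω/ℚ)), IsIn H ((H j).comp (conjBy K s)))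
    {I : Type} [Countable I] {R : I → GalOf K Ω →* GL (Fin m) k}
    (hR : ∀ i, IsCont (R i)) (hirr : ∀ i, (rep (R i)).IsIrreducible) {w : ℝ}
    {SJ : J → Finset ℕ} (hSJ : ∀ j, Unram K (SJ j)) (hHS : ∀ j, IsUnr (SJ j) (H j))
    (hPJ : ∀ j, IsSys (SJ j) m w (frobPoly ι F (H j)))
    {SI : I → Finset ℕ} (hSI : ∀ i, Unram K (SI i)) (hRS : ∀ i, IsUnr (SI i) (R i))
    (hPI : ∀ i, IsSys (SI i) m w (frobPoly ι F (R i)))
    {lH : J → ℝ → ℂ} (hlH : ∀ j, IsEdgeOf (SJ j) m (frobPoly ι F (H j)) w (lH j))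
    {l : I → ℝ → ℂ} (hl : ∀ i, IsEdgeOf (SI i) m (frobPoly ι F (R i)) w (l i)) :
    (∀ i, [IsIn H (R i),
        ∃ j, DependentOn (l i) (fun _ : Unit => lH j),
        DependentOn (l i) lH,
        ¬ IndependentOf (l i) lH].TFAE) ∧
      ((∀ i i', i ≠ i' → ¬ IsConjugate (conjBy (Ω := Ω) K) (R i) (R i')) →
        ∀ k' : Subfield ℂ, (k' : Set ℂ).Countable → ∀ᵐ t : ℝ,
          AlgebraicIndependent (IntermediateField.adjoin k' (valSet (fun j => lH j t) t))
            fun i : {i // ¬ IsIn H (R i)} => l i.1 t) := by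
  refine ⟨fun i => ?_, fun hnc k' hk' => ?_⟩
  · obtain ⟨h1, h2, h3⟩ := main_conc0 ι hF (hR i) (hirr i) hH (hSI i) (hRS i) hSJ hHS (hPI i) hPJ
      (hl i) hlH
    have h4 := fun j => main_conc0 ι hF (hR i) (hirr i) (J := Unit) (fun _ => hH j) (hSI i) (hRS i)
      (fun _ => hSJ j) (fun _ => hHS j) (hPI i) (fun _ => hPJ j) (hl i) (fun _ => hlH j)
    tfae_have 1 → 2 := by
      rintro ⟨j, hj⟩
      exact ⟨j, (h4 j).2.1 ⟨(), hj⟩⟩
    tfae_have 2 → 1 := by
      rintro ⟨j, hj⟩
      obtain ⟨-, s, h5⟩ := (h4 j).1 hj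
      obtain ⟨E⟩ := equiv_of_subquotient h5 le_rfl
      obtain ⟨j', ⟨E'⟩⟩ := hstab j s
      exact ⟨j', ⟨E.symm.trans E'⟩⟩
    tfae_have 1 → 3 := h2
    tfae_have 3 → 1 := by
      intro h
      obtain ⟨j, s, h5⟩ := h1 h
      obtain ⟨E⟩ := equiv_of_subquotient h5 le_rfl
      obtain ⟨j', ⟨E'⟩⟩ := hstab j s
      exact ⟨j', ⟨E.symm.trans E'⟩⟩
    tfae_have 3 ↔ 4 := by
      refine ⟨not_indep, fun h => ?_⟩
      rcases h3 with h4 | h4
      · exact h4
      · exact absurd h4 h
    tfae_finish
  · refine algInd_of_indep (l := fun i : {i // ¬ IsIn H (R i)} => l i.1) (lU := lH)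
      (fun i => ?_) k' hk'
    obtain ⟨h1, -, h2⟩ := main_conc0 ι hF (hR i.1) (hirr i.1)
      (J := J ⊕ {i' : {i // ¬ IsIn H (R i)} // i' ≠ i}) (m := fun _ => m)
      (H := Sum.elim H fun i' => R i'.1)
      (by rintro (j | i'); exacts [hH j, hR i'.1]) (hSI i.1) (hRS i.1)
      (SJ := Sum.elim SJ fun i' => SI i'.1)
      (by rintro (j | i'); exacts [hSJ j, hSI i'.1])
      (by rintro (j | i'); exacts [hHS j, hRS i'.1]) (hPI i.1)
      (by rintro (j | i'); exacts [hPJ j, hPI i'.1]) (hl i.1)
      (lH := Sum.elim lH fun i' => l i'.1)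
      (by rintro (j | i'); exacts [hlH j, hl i'.1])
    rcases h2 with h3 | h3
    · exfalso
      obtain ⟨j | i', s, h4⟩ := h1 h3
      · obtain ⟨E⟩ := equiv_of_subquotient h4 le_rfl
        obtain ⟨j', ⟨E'⟩⟩ := hstab j s
        exact i.2 ⟨j', ⟨E.symm.trans E'⟩⟩
      · obtain ⟨E⟩ := equiv_of_subquotient h4 le_rfl
        exact hnc i.1 i'.1.1 (fun h => i'.2 (Subtype.ext h.symm)) ⟨s, ⟨E.symm⟩⟩
    · exact h3

end Pool.Agent.Results.MP_adf543_nt.AutomorphyOnTheEdge
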