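import Mathlib
import Pool.Agent.R384.Z.FmMono

/-!
# Irreducible representations over CM fields in the `2`-extensions of `ℚ(√-d)` unramified outside `2`
# which are potentially ordinary at one place above `2` are monomial

Let `k = ℚ(√-d)`, where `d` is a prime number that is `7` modulo `16`, or the product of a prime
number that is `5` modulo `8` and of a prime number that is `3` modulo `8`. Let `K ⊇ k` be a field
contained in a finite Galois extension `M / k` of degree a power of `2`, unramified outside `2`, for
example a CM field of this kind; there is no condition on the structure of the Galois group of `M / k`,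
and `K / k` need not be Galois.

Let `R` be a continuous irreducible representation of `G_K` over a finite extension `E` of `ℚ_2` (or
over the fraction field of any Noetherian local domain with finite residue field of characteristic
`2`), of any dimension `m`, which is unramified outside `2` and residually unipotent, and let `E` be so
large that the characteristic polynomials of all `R(σ)` split over `E`.

Theorem: if at ONE place of `K` above `2` the representation `R` potentially contains a line (for
example if `R` is potentially ordinary at this place), then `R` is monomial: it is induced from a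
character of `G_L`, where `L / K` is an extension of degree `m` which is contained in a finite Galois
extension of `K` of degree a power of `2`. In particular `m` is a power of `2`.

If `R` is moreover potentially semi-stable at the places above `2`, the character is algebraic, and
`R` is automorphic by class field theory and the automorphic induction of Arthur and Clozel (`L / K` is
a tower of quadratic extensions). (This deduction is not part of the formal proof.)

Proof. The decomposition group at one place above `2` is dense in the maximal pro-`2` quotient of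
`G_K` unramified outside `2`, by the theorem of Burnside and the computation of the quadratic
extensions of `k`. So the subspaces which are potentially stable under the decomposition group are
potentially stable under `G_K`, and an open normal subgroup `T` of index a power of `2` acts by
commuting diagonalizable operators. The theorem of Clifford, applied to a descending sequence of
subgroups and weight spaces, gives the character.
-/

set_option autoImplicit false

namespace Pool.Agent.Results.MP_adf543_nt.MonomialFromOnePlace

open Matrix IsLocalRing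

/-- An algebraic closure of `ℚ`. -/
abbrev QBar : Type := AlgebraicClosure ℚ

/-- The field `ℚ(s)`. It is `ℚ(√-d)` if `s² = -d`. -/
noncomputable abbrev K (s : QBar) : IntermediateField ℚ QBar := IntermediateField.adjoin ℚ {s}

/-- The absolute Galois group of `ℚ(s)`. -/
def Gal (s : QBar) : Type := QBar ≃ₐ[K s] QBar

/-- its group structure -/
noncomputable instance instGroupGal (s : QBar) : Group (Gal s) := AlgEquiv.aut (R := K s) (A₁ := QBar)

/-- its Krull topology -/
noncomputable instance instTopGal (s : QBar) : TopologicalSpace (Gal s) := krullTopology (K s) QBar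

/-- The action of the Galois group on `ℚ̄`. -/
noncomputable def app {s : QBar} (σ : Gal s) (x : QBar) : QBar := (show QBar ≃ₐ[K s] QBar from σ) x

/-- The class of the numbers `d`: the primes `7 mod 16`, and the products of a prime `5 mod 8` and of
a prime `3 mod 8`. -/
def InClass (d : ℕ) : Prop :=
  (d.Prime ∧ d % 16 = 7) ∨ ∃ p q : ℕ, p.Prime ∧ q.Prime ∧ p % 8 = 5 ∧ q % 8 = 3 ∧ d = p * q

/-- The decomposition group of the place given by the embedding `ι` of `ℚ̄`. -/
def Dec {s : QBar} {p : ℕ} [Fact p.Prime] (ι : QBar →ₐ[ℚ] PadicAlgCl p) : Set (Gal s) :=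
  {σ | ∃ τ : PadicAlgCl p ≃ₐ[ℚ_[p]] PadicAlgCl p, ∀ x, τ (ι x) = ι (app σ x)}

/-- Its inertia group: the automorphisms which are trivial on the residue field. -/
def Inr {s : QBar} {p : ℕ} [Fact p.Prime] (ι : QBar →ₐ[ℚ] PadicAlgCl p) : Set (Gal s) :=
  {σ | ∃ τ : PadicAlgCl p ≃ₐ[ℚ_[p]] PadicAlgCl p, (∀ x, τ (ι x) = ι (app σ x)) ∧
    ∀ z : PadicAlgCl p, ‖z‖ ≤ 1 → ‖τ z - z‖ < 1}

/-- `N` is the Galois group of `ℚ̄ / M` for a finite Galois extension `M / ℚ(s)` whose degree is a
power of `2` and which is unramified outside `2`: `N` is a normal open subgroup of index a power of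
`2` and contains the inertia groups of the odd primes. -/
structure TwoExtension {s : QBar} (N : Subgroup (Gal s)) : Prop where
  isOpen : IsOpen (N : Set (Gal s))
  normal : N.Normal
  index : ∃ a : ℕ, N.index = 2 ^ a
  unramified : ∀ (p : ℕ) [Fact p.Prime] (ι : QBar →ₐ[ℚ] PadicAlgCl p), p ≠ 2 →
    ∀ σ ∈ (Inr ι : Set (Gal s)), σ ∈ N

/-- The representation `ρ` of the absolute Galois group `H` of `L` is continuous, residually
unipotent and unramified outside `2`. -/
structure Admissible {s : QBar} {H : Subgroup (Gal s)} {A : Type} [CommRing A] [IsLocalRing A]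
    [TopologicalSpace A] {n : ℕ} (ρ : H →* GL (Fin n) A) : Prop where
  cont : ∀ i j, Continuous fun σ => (ρ σ : Matrix (Fin n) (Fin n) A) i j
  unipotent : ∀ σ, ∃ m : ℕ, ∀ i j,
    (((ρ σ : Matrix (Fin n) (Fin n) A) - 1) ^ m) i j ∈ maximalIdeal A
  unramified : ∀ (p : ℕ) [Fact p.Prime] (ι : QBar →ₐ[ℚ] PadicAlgCl p), p ≠ 2 →
    ∀ σ : H, (σ : Gal s) ∈ Inr ι → ρ σ = 1

/-- The action of `σ` on `V = F ^ n`. -/
noncomputable def act {s : QBar} {H : Subgroup (Gal s)} {A : Type} [CommRing A] (F : Type) [Field F] [Algebra A F]
    {n : ℕ} (ρ : H →* GL (Fin n) A) (σ : H) (v : Fin n → F) : Fin n → F :=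
  ((ρ σ : Matrix (Fin n) (Fin n) A).map (algebraMap A F)) *ᵥ v

/-- `V` is irreducible. -/
def Irreducible {s : QBar} {H : Subgroup (Gal s)} {A : Type} [CommRing A] (F : Type) [Field F]
    [Algebra A F] {n : ℕ} (ρ : H →* GL (Fin n) A) : Prop :=
  ∀ W : Submodule F (Fin n → F), (∀ σ, ∀ w ∈ W, act F ρ σ w ∈ W) → W = ⊥ ∨ W = ⊤

/-- `V` potentially contains a line on `D`: some nonzero vector of `V` is an eigenvector of all
elements of a subgroup `D'` of `H`, finitely many left cosets of which cover the elements of `H` which
are in `D`. -/
def PotentialLine {s : QBar} {H : Subgroup (Gal s)} {A : Type} [CommRing A] (F : Type) [Field F]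
    [Algebra A F] {n : ℕ} (ρ : H →* GL (Fin n) A) (D : Set (Gal s)) : Prop :=
  ∃ (D' : Subgroup H) (R : Set H) (v : Fin n → F), R.Finite ∧
    (∀ δ : H, (δ : Gal s) ∈ D → ∃ r ∈ R, r⁻¹ * δ ∈ D') ∧ v ≠ 0 ∧
    ∀ δ ∈ D', ∃ c : F, act F ρ δ v = c • v

/-- The representation `V` is monomial: there are an open subgroup `L`, of index `n = dim V`, and a
nonzero vector of `V` which is an eigenvector of all elements of `L`, so that the irreducible
representation `V` is induced from the character of `L` on this vector; `L` contains an open normal
subgroup `T` of index a power of `2`. -/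
def Monomial {s : QBar} {H : Subgroup (Gal s)} {A : Type} [CommRing A] (F : Type) [Field F]
    [Algebra A F] {n : ℕ} (ρ : H →* GL (Fin n) A) : Prop :=
  ∃ (T L : Subgroup H) (u : Fin n → F), T.Normal ∧ IsOpen (T : Set H) ∧
    (∃ a : ℕ, T.index = 2 ^ a) ∧ T ≤ L ∧ L.index = n ∧ u ≠ 0 ∧ ∀ σ ∈ L, ∃ c : F, act F ρ σ u = c • u

/-- The characteristic polynomials of all elements of the image split over `F`. -/
def Split {s : QBar} {H : Subgroup (Gal s)} {A : Type} [CommRing A] (F : Type) [Field F]
    [Algebra A F] {n : ℕ} (ρ : H →* GL (Fin n) A) : Prop :=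
  ∀ σ : H, ((ρ σ : Matrix (Fin n) (Fin n) A).map (algebraMap A F)).charpoly.Splits

/-- **Irreducible representations which potentially contain a line at one place above `2` are
monomial.** -/
theorem result : ∀ d : ℕ, InClass d → ∀ s : QBar, s ^ 2 = -(d : QBar) →
    ∀ H N : Subgroup (Gal s), N ≤ H → TwoExtension N →
    ∀ (A : Type) [CommRing A] [IsLocalRing A] [IsNoetherianRing A] [TopologicalSpace A],
      IsAdic (maximalIdeal A) → Finite (ResidueField A) → (2 : A) ∈ maximalIdeal A →
    ∀ (F : Type) [Field F] [Algebra A F] [IsFractionRing A F] (n : ℕ) (ρ : H →* GL (Fin n) A),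
      Admissible ρ → Irreducible F ρ → Split F ρ → ∀ ι : QBar →ₐ[ℚ] PadicAlgCl 2,
        PotentialLine F ρ (Dec ι) → Monomial F ρ := by
  intro d hd s hs H N hNH hN A _ _ _ _ hA hfin h2 F _ _ _ n ρ hρ hirr hsp ι hline
  obtain ⟨D', R, v, hRf, hR, hv, hD'⟩ := hline
  exact Pool.Agent.Z384.fmmono hs hd hNH hN.normal hN.index hN.isOpen hN.unramified hA hfin h2
    hρ.cont hρ.unipotent hρ.unramified ι hRf hR hirr hsp hv hD'

end Pool.Agent.Results.MP_adf543_nt.MonomialFromOnePlace
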